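import Pool.Agent.H94.PG.M05
import Pool.Agent.H94.PG.M09
import Pool.Agent.H94.PG.M16
import Pool.Agent.H94.PG.M21

/-!
# LQ stage 3, module Fin7: the dichotomy for one integer

`rt N = N / φ(N)`.  `step7`: if the pattern is rare then `M` has a large divisor `m` with the
property `Fail` of `Pool.Agent.H78.PD.Ana3`; `ρ = c (rt N) ^ (-k)`, `Q = ⌊ρ ^ (-1/640)⌋`, `combi3`.
-/

set_option autoImplicit false

namespace Pool.Agent.H11.LQ

open Finset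
open Pool.Agent.H34PG (lam lam_val lam_mul lam_prime)
open Pool.Agent.H78.PD (Fail lift3)

/-- `N / φ(N)` -/
noncomputable def rt (N : ℕ) : ℝ := (N : ℝ) / N.totient

theorem rt_mul {N : ℕ} (hN : N ≠ 0) : (N : ℝ) = rt N * N.totient := by
  unfold rt
  have h : (0 : ℝ) < N.totient := by exact_mod_cast Nat.totient_pos.mpr (Nat.pos_of_ne_zero hN)
  rw [div_mul_cancel₀ _ h.ne']

theorem rt_ge {N : ℕ} (hN : N ≠ 0) : 1 ≤ rt N := by
  unfold rt
  have h : (0 : ℝ) < N.totient := by exact_mod_cast Nat.totient_pos.mpr (Nat.pos_of_ne_zero hN)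
  rw [one_le_div h]
  exact_mod_cast Nat.totient_le N

theorem rt_le {N : ℕ} (hN : N ≠ 0) : rt N ≤ 2 + 2 * Real.log N := by
  unfold rt
  have h : (0 : ℝ) < N.totient := by exact_mod_cast Nat.totient_pos.mpr (Nat.pos_of_ne_zero hN)
  rw [div_le_iff₀ h]
  exact Pool.Agent.H78.PH.tot_log N (Nat.pos_of_ne_zero hN)

theorem rt_inv {N : ℕ} (hN : N ≠ 0) : (rt N)⁻¹ = ∏ p ∈ N.primeFactors, (1 - (p : ℝ)⁻¹) := by
  have : NeZero N := ⟨hN⟩
  rw [← Pool.Agent.H78.PD.lift3_tot, rt, inv_div]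

theorem rt_mono {m N : ℕ} (hN : N ≠ 0) (h : m ∣ N) : rt m ≤ rt N := by
  have hm : m ≠ 0 := by
    rintro rfl
    exact hN (Nat.eq_zero_of_zero_dvd h)
  have h1 := rt_ge hm
  have h2 := rt_ge hN
  rw [← inv_le_inv₀ (by linarith only [h2]) (by linarith only [h1]), rt_inv hm, rt_inv hN]
  have hsub : m.primeFactors ⊆ N.primeFactors := Nat.primeFactors_mono h hN
  rw [← Finset.prod_sdiff hsub]
  have hp : ∀ p ∈ N.primeFactors, (0 : ℝ) ≤ 1 - (p : ℝ)⁻¹ ∧ 1 - (p : ℝ)⁻¹ ≤ 1 := by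
    intro p hp
    have hp1 : (1 : ℝ) ≤ p := by exact_mod_cast (Nat.prime_of_mem_primeFactors hp).one_le
    have h3 := inv_le_one_of_one_le₀ hp1
    have h4 : (0 : ℝ) ≤ (p : ℝ)⁻¹ := by positivity
    exact ⟨by linarith only [h3], by linarith only [h4]⟩
  refine mul_le_of_le_one_left (Finset.prod_nonneg fun p h => (hp p (hsub h)).1) ?_
  exact Finset.prod_le_one (fun p h => (hp p (Finset.mem_sdiff.mp h).1).1)
    fun p h => (hp p (Finset.mem_sdiff.mp h).1).2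

/-- the constants of `step7` -/
private theorem fin7_const (ρ0 ε1 Ct : ℝ) (Q0 : ℕ) (h0 : 0 < ρ0) (h1 : 0 < ε1) (h2 : 0 < Ct) :
    ∃ c1 : ℝ, 0 < c1 ∧ c1 ≤ 1 ∧ c1 ≤ ρ0 ∧ (Q0 : ℝ) + 4 ≤ c1 ^ (-(1 / 640) : ℝ) ∧
      c1 ^ (1 / 4 : ℝ) * Ct ≤ ε1 := by
  have hQ : (0 : ℝ) < (Q0 : ℝ) + 4 := by positivity
  obtain ⟨a, ha⟩ : ∃ a : ℝ, a = ((Q0 : ℝ) + 4) ^ (-(640 : ℝ)) := ⟨_, rfl⟩
  obtain ⟨b, hb⟩ : ∃ b : ℝ, b = (ε1 / Ct) ^ (4 : ℝ) := ⟨_, rfl⟩
  have ha0 : 0 < a := by rw [ha]; positivity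
  have hb0 : 0 < b := by rw [hb]; positivity
  refine ⟨min 1 (min ρ0 (min a b)), lt_min one_pos (lt_min h0 (lt_min ha0 hb0)), min_le_left _ _,
    (min_le_right _ _).trans (min_le_left _ _), ?_, ?_⟩
  · have h3 : min 1 (min ρ0 (min a b)) ≤ a :=
      (min_le_right _ _).trans ((min_le_right _ _).trans (min_le_left _ _))
    have h4 : a ^ (-(1 / 640) : ℝ) = (Q0 : ℝ) + 4 := by
      rw [ha, ← Real.rpow_mul hQ.le]
      norm_num
    rw [← h4]
    exact Real.rpow_le_rpow_of_nonpos (lt_min one_pos (lt_min h0 (lt_min ha0 hb0))) h3 (by norm_num)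
  · have h3 : min 1 (min ρ0 (min a b)) ≤ b :=
      (min_le_right _ _).trans ((min_le_right _ _).trans (min_le_right _ _))
    have h4 : b ^ (1 / 4 : ℝ) = ε1 / Ct := by
      rw [hb, ← Real.rpow_mul (by positivity)]
      norm_num
    have h5 : (min 1 (min ρ0 (min a b))) ^ (1 / 4 : ℝ) ≤ ε1 / Ct := by
      rw [← h4]
      exact Real.rpow_le_rpow (lt_min one_pos (lt_min h0 (lt_min ha0 hb0))).le h3 (by norm_num)
    calc _ ≤ ε1 / Ct * Ct := mul_le_mul_of_nonneg_right h5 h2.le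
      _ = ε1 := div_mul_cancel₀ _ h2.ne'

theorem step7 (θ ε1 : ℝ) (hθ : 0 < θ) (hε1 : 0 < ε1) (Q0 m0 : ℕ) : ∃ C : ℝ, 1 ≤ C ∧ ∃ k N0 : ℕ,
    ∀ N : ℕ, N0 ≤ N → ∀ M : ℕ, M ∣ N → N ≤ 2 * M → ∀ η : ℤ, (η = 1 ∨ η = -1) → ∀ R : ℕ,
      (Ex M η 2).card ≤ 24 * R + 4 → (N : ℝ) ≤ C * rt N ^ k * R ∨
      ∃ (m : ℕ) (_ : NeZero m) (Q : ℕ), m ∣ M ∧ m0 ≤ m ∧ (M : ℝ) ^ (1 / 2 : ℝ) ≤ m ∧
        (N : ℝ) ≤ C * rt N ^ k * m ∧ Q0 ≤ Q ∧ Fail θ ε1 m η Q := by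
  obtain ⟨c0, ρ0, hc0, hρ0, hρ01, m1, H1⟩ := combi3
  obtain ⟨c1, hc1, hc11, hc1ρ, hc1Q, hc1ε⟩ := fin7_const ρ0 ε1 1 Q0 hρ0 hε1 one_pos
  rw [mul_one] at hc1ε
  obtain ⟨k, hk⟩ : ∃ k : ℕ, k = ⌈640 / θ⌉₊ + 4 := ⟨_, rfl⟩
  obtain ⟨d, hd⟩ : ∃ d : ℝ, d = min c0 (1 / 2) := ⟨_, rfl⟩
  have hd0 : 0 < d := by rw [hd]; exact lt_min hc0 (by norm_num)
  have hdc : d ≤ c0 := by rw [hd]; exact min_le_left _ _
  have hd2 : d ≤ 1 / 2 := by rw [hd]; exact min_le_right _ _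
  obtain ⟨m2, H2⟩ := Pool.Agent.H78.PG.grow (4 ^ k / c1) k d hd0
  refine ⟨100 / c1, by rw [le_div_iff₀ hc1]; linarith only [hρ0, hρ01, hc11], k, 2 * m1 + 2 * m2 + 2 * m0 ^ 2 + 200,
    fun N hN M hMN hNM η hη R hR => ?_⟩
  have hM0 : 0 < M := by omega
  have hMle : M ≤ N := Nat.le_of_dvd (by omega) hMN
  have hMr : (0 : ℝ) < M := by exact_mod_cast hM0
  have hM100 : (100 : ℝ) ≤ M := by exact_mod_cast (by omega : 100 ≤ M)
  have hMN' : (M : ℝ) ≤ N := by exact_mod_cast hMle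
  have hNM' : (N : ℝ) ≤ 2 * M := by exact_mod_cast hNM
  obtain ⟨w, hw⟩ : ∃ w : ℝ, w = rt N := ⟨_, rfl⟩
  have hw1 : 1 ≤ w := by rw [hw]; exact rt_ge (by omega)
  have hw0 : 0 < w := by linarith only [hρ0, hρ01, hw1]
  rw [← hw]
  obtain ⟨ρ, hρ⟩ : ∃ ρ : ℝ, ρ = c1 / w ^ k := ⟨_, rfl⟩
  have hwk : 1 ≤ w ^ k := one_le_pow₀ hw1
  have hρpos : 0 < ρ := by rw [hρ]; positivity
  have hρc1 : ρ ≤ c1 := by
    rw [hρ]
    exact div_le_self hc1.le hwk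
  have hρ1 : ρ ≤ 1 := hρc1.trans hc11
  have hCρ : 100 / c1 * w ^ k = 100 / ρ := by
    rw [hρ]
    field_simp
  rw [hCρ]
  -- `M ^ (-d) ≤ ρ`
  have hρM : (M : ℝ) ^ (-d) ≤ ρ := by
    have h1 := H2 M (by omega)
    have h2 : w ≤ 4 * (1 + Real.log M) := by
      have h3 := rt_le (N := N) (by omega)
      have h4 : Real.log N ≤ Real.log 2 + Real.log M := by
        rw [← Real.log_mul (by norm_num) hMr.ne']
        exact Real.log_le_log (by exact_mod_cast (by omega : 0 < N)) hNM'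
      have h5 := Real.log_two_lt_d9
      have h6 : 0 ≤ Real.log M := Real.log_nonneg (by linarith only [hρ0, hρ01, hM100])
      rw [hw]
      linarith only [hρ0, hρ01, h3, h4, h5, h6]
    have h3 : w ^ k / c1 ≤ (M : ℝ) ^ d := by
      refine le_trans ?_ h1
      rw [div_mul_eq_mul_div, ← mul_pow]
      exact div_le_div_of_nonneg_right (pow_le_pow_left₀ hw0.le h2 k) hc1.le
    have h4 : 0 < (M : ℝ) ^ d := by positivity
    rw [Real.rpow_neg hMr.le, hρ, inv_eq_one_div, div_le_div_iff₀ h4 (by positivity)]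
    rw [div_le_iff₀ hc1] at h3
    linarith only [h3]
  rcases le_or_gt (N : ℝ) (100 / ρ * R) with hcase | hcase
  · exact Or.inl hcase
  right
  -- the exceptional set of `2` is small
  have hRN : (R : ℝ) < ρ / 100 * N := by
    rw [div_mul_eq_mul_div, div_lt_iff₀ hρpos] at hcase
    linarith only [hcase]
  have he2 : ((Ex M η 2).card : ℝ) ≤ ρ * M := by
    have h4 : ((Ex M η 2).card : ℝ) ≤ 24 * (R : ℝ) + 4 := by exact_mod_cast hR
    have h7 : (M : ℝ) ^ (1 / 2 : ℝ) ≤ ρ * M := by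
      calc (M : ℝ) ^ (1 / 2 : ℝ) ≤ (M : ℝ) ^ (-d + 1) :=
            Real.rpow_le_rpow_of_exponent_le (by linarith only [hρ0, hρ01, hM100]) (by linarith only [hd2])
        _ = (M : ℝ) ^ (-d) * M := by rw [Real.rpow_add hMr, Real.rpow_one]
        _ ≤ ρ * M := mul_le_mul_of_nonneg_right hρM hMr.le
    have h6 : (10 : ℝ) ≤ ρ * M := by
      refine le_trans ?_ h7
      rw [← Real.sqrt_eq_rpow]
      refine Real.le_sqrt_of_sq_le ?_
      linarith only [hM100]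
    have h8 : ρ * N ≤ ρ * (2 * M) := mul_le_mul_of_nonneg_left hNM' hρpos.le
    linarith only [hρ0, hρ01, hRN, h4, h6, h8]
  have hρM' : (M : ℝ) ^ (-c0) ≤ ρ := le_trans (Real.rpow_le_rpow_of_exponent_le (by linarith only [hρ0, hρ01, hM100])
    (by linarith only [hdc])) hρM
  obtain ⟨m, hmM, hm1, hm2, hm3⟩ := H1 M (by omega) ρ hρM' (hρc1.trans hc1ρ) η hη he2
  have hm0 : 0 < m := Nat.pos_of_dvd_of_pos hmM hM0
  have hmr : (0 : ℝ) < m := by exact_mod_cast hm0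
  have hne : NeZero m := ⟨hm0.ne'⟩
  have hmN : m ∣ N := hmM.trans hMN
  obtain ⟨z, hz⟩ : ∃ z : ℝ, z = ρ ^ (-(1 / 640) : ℝ) := ⟨_, rfl⟩
  rw [← hz] at hm3
  -- lower bounds for `z`
  have hk1 : 640 / θ ≤ (k : ℝ) - 4 := by
    rw [hk]
    push_cast
    linarith only [Nat.le_ceil (640 / θ)]
  have hzge : ((Q0 : ℝ) + 4) * w ^ ((k : ℝ) / 640) ≤ z := by
    have h1 : z = c1 ^ (-(1 / 640) : ℝ) * w ^ ((k : ℝ) / 640) := by
      rw [hz, hρ, Real.div_rpow hc1.le (by positivity), ← Real.rpow_natCast w k, ← Real.rpow_mul hw0.le,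
        div_eq_mul_inv, ← Real.rpow_neg hw0.le]
      congr 2
      ring
    rw [h1]
    exact mul_le_mul_of_nonneg_right hc1Q (by positivity)
  have hb1 : 1 ≤ w ^ ((k : ℝ) / 640) := Real.one_le_rpow hw1 (by positivity)
  have hQ0r : (0 : ℝ) ≤ Q0 := Nat.cast_nonneg _
  have hz4 : (Q0 : ℝ) + 4 ≤ z := by nlinarith only [hzge, hb1]
  have hz0 : 0 < z := by linarith only [hρ0, hρ01, hz4]
  obtain ⟨Q, hQ⟩ : ∃ Q : ℕ, Q = ⌊z⌋₊ := ⟨_, rfl⟩
  have hQz : (Q : ℝ) ≤ z := by rw [hQ]; exact Nat.floor_le hz0.le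
  have hzQ : z < Q + 1 := by rw [hQ]; exact Nat.lt_floor_add_one z
  have hQQ0 : Q0 ≤ Q := by
    rw [hQ]
    exact Nat.le_floor (by linarith only [hρ0, hρ01, hz4])
  have hQb : w ^ ((k : ℝ) / 640) ≤ Q := by
    have h1 : 4 * w ^ ((k : ℝ) / 640) ≤ z := by nlinarith only [hzge, hb1]
    linarith only [hρ0, hρ01, hz4, hzQ, h1]
  have hQθ : w ≤ (Q : ℝ) ^ θ := by
    calc w = w ^ (1 : ℝ) := (Real.rpow_one _).symm
      _ ≤ w ^ ((k : ℝ) / 640 * θ) := by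
          refine Real.rpow_le_rpow_of_exponent_le hw1 ?_
          rw [div_mul_eq_mul_div, le_div_iff₀ (by norm_num)]
          have h2 : 640 / θ ≤ (k : ℝ) := by linarith only [hρ0, hρ01, hk1]
          rw [div_le_iff₀ hθ] at h2
          linarith only [h2]
      _ = (w ^ ((k : ℝ) / 640)) ^ θ := by rw [← Real.rpow_mul hw0.le]
      _ ≤ (Q : ℝ) ^ θ := Real.rpow_le_rpow (by positivity) hQb hθ.le
  refine ⟨m, hne, Q, hmM, ?_, hm1, ?_, hQQ0, ?_, hη, fun q hq hqQ => ?_⟩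
  · -- `m0 ≤ m`
    have h1 : (m0 : ℝ) ≤ (M : ℝ) ^ (1 / 2 : ℝ) := by
      rw [← Real.sqrt_eq_rpow]
      refine Real.le_sqrt_of_sq_le ?_
      exact_mod_cast (by omega : m0 ^ 2 ≤ M)
    exact_mod_cast h1.trans hm1
  · -- `N ≤ (100 / ρ) m`
    have h1 : ρ ≤ ρ ^ (1 / 8 : ℝ) := by
      calc ρ = ρ ^ (1 : ℝ) := (Real.rpow_one _).symm
        _ ≤ _ := Real.rpow_le_rpow_of_exponent_ge hρpos hρ1 (by norm_num)
    have h2 : ρ * M ≤ m := le_trans (mul_le_mul_of_nonneg_right h1 hMr.le) hm2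
    rw [div_mul_eq_mul_div, le_div_iff₀ hρpos]
    have h3 : ρ * N ≤ ρ * (2 * M) := mul_le_mul_of_nonneg_left hNM' hρpos.le
    linarith only [hmr, h2, h3]
  · -- the ratio `m / φ(m)`
    have h1 := rt_mul hm0.ne'
    have h2 := rt_mono (by omega) hmN
    rw [← hw] at h2
    rw [h1]
    exact mul_le_mul_of_nonneg_right (h2.trans hQθ) (Nat.cast_nonneg _)
  · -- the exceptional sets
    have hqz : (q : ℝ) ≤ z := le_trans (by exact_mod_cast hqQ) hQz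
    have h1 := hm3 q hq hqz
    have hφ : (0 : ℝ) ≤ m.totient := Nat.cast_nonneg _
    have h2 : (m : ℝ) ≤ w * m.totient := by
      have h3 := rt_mono (by omega) hmN
      rw [← hw] at h3
      exact (rt_mul hm0.ne').le.trans (mul_le_mul_of_nonneg_right h3 hφ)
    have h3 : z * Real.sqrt ρ ≤ c1 ^ (1 / 4 : ℝ) * w⁻¹ := by
      calc z * Real.sqrt ρ = ρ ^ (-(1 / 640) + 1 / 2 : ℝ) := by
            rw [Real.rpow_add hρpos, hz, Real.sqrt_eq_rpow]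
        _ ≤ ρ ^ (1 / 4 : ℝ) := Real.rpow_le_rpow_of_exponent_ge hρpos hρ1 (by norm_num)
        _ = c1 ^ (1 / 4 : ℝ) * w ^ (-((k : ℝ) / 4)) := by
            rw [hρ, Real.div_rpow hc1.le (by positivity), ← Real.rpow_natCast w k,
              ← Real.rpow_mul hw0.le, div_eq_mul_inv, ← Real.rpow_neg hw0.le]
            congr 2
            ring
        _ ≤ c1 ^ (1 / 4 : ℝ) * w⁻¹ := by
            refine mul_le_mul_of_nonneg_left ?_ (by positivity)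
            rw [← Real.rpow_neg_one]
            refine Real.rpow_le_rpow_of_exponent_le hw1 ?_
            have h4 : (4 : ℝ) ≤ k := by
              have : 4 ≤ k := by omega
              exact_mod_cast this
            linarith only [h4]
    have hs : 0 ≤ Real.sqrt ρ := Real.sqrt_nonneg _
    calc (Q : ℝ) * ((Ex m η q).card : ℝ) ≤ z * (Real.sqrt ρ * m) :=
          mul_le_mul hQz h1 (Nat.cast_nonneg _) hz0.le
      _ = z * Real.sqrt ρ * m := by ring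
      _ ≤ (c1 ^ (1 / 4 : ℝ) * w⁻¹) * (w * m.totient) :=
          mul_le_mul h3 h2 hmr.le (by positivity)
      _ = c1 ^ (1 / 4 : ℝ) * m.totient := by
          field_simp
      _ ≤ ε1 * m.totient := mul_le_mul_of_nonneg_right hc1ε (by positivity)

end Pool.Agent.H11.LQ
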